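import Pool.Agent.FS.AsymLimit.Ess

/-!
The noncompact L-asymptotic limits of power bounded operators on a separable complex Hilbert
space. The bounded complex sequences are modelled as the bounded continuous functions on the
discrete space of natural numbers.
-/

namespace Pool.Agent.Results.MP_f651fd_an.NonCompactLimits

open Filter Topology Pool.Agent.FS.AsymLimit

/-- A Banach limit: a positive, shift-invariant, normalised linear functional on bounded
sequences. -/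
def IsBanachLimit (L : BoundedContinuousFunction ℕ ℂ →ₗ[ℂ] ℂ) : Prop :=
  (∀ u : BoundedContinuousFunction ℕ ℂ, (∀ n, 0 ≤ (u n).re ∧ (u n).im = 0) →
    0 ≤ (L u).re ∧ (L u).im = 0) ∧
  (∀ u v : BoundedContinuousFunction ℕ ℂ, (∀ n, v n = u (n + 1)) → L v = L u) ∧
  (∀ u : BoundedContinuousFunction ℕ ℂ, (∀ n, u n = 1) → L u = 1)

/-- The operator A is the L-asymptotic limit of T. -/
def IsAsymptoticLimit {H : Type*} [NormedAddCommGroup H] [InnerProductSpace ℂ H]
    (L : BoundedContinuousFunction ℕ ℂ →ₗ[ℂ] ℂ) (T A : H →L[ℂ] H) : Prop :=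
  ∀ (x y : H) (u : BoundedContinuousFunction ℕ ℂ),
    (∀ n : ℕ, u n = inner ℂ ((T ^ n) x) ((T ^ n) y)) → inner ℂ (A x) y = L u

theorem result {H : Type*} [NormedAddCommGroup H] [InnerProductSpace ℂ H] [CompleteSpace H]
    [TopologicalSpace.SeparableSpace H]
    (L : BoundedContinuousFunction ℕ ℂ →ₗ[ℂ] ℂ) (hL : IsBanachLimit L)
    (A : H →L[ℂ] H) (hA : A.IsPositive) (hK : ¬ IsCompactOperator A) :
    (∃ T : H →L[ℂ] H, (∃ M : ℝ, ∀ n : ℕ, ‖T ^ n‖ ≤ M) ∧ IsAsymptoticLimit L T A) ↔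
      ∃ e : ℕ → H, Orthonormal ℂ e ∧
        Tendsto (fun n => inner ℂ (A (e n)) (e n)) atTop (𝓝 (1 : ℂ)) := by
  obtain ⟨X, hX, hc⟩ := exists_root A hA
  have hq : ∀ x, inner ℂ (A x) x = ((‖X x‖ ^ 2 : ℝ) : ℂ) := fun x => by
    rw [hX, inner_self_eq_norm_sq_to_K]
    simp
  simp only [hq]
  constructor
  · rintro ⟨T, ⟨M, hM⟩, h⟩
    obtain ⟨e, he, h1⟩ := seq_of_ess X (nec L hL.1 hL.2.1 hL.2.2 X T (fun h => hK (hc h)) hM
      fun x u hu => (hX x x).symm.trans (h x x u hu))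
    exact ⟨e, he, (Complex.continuous_ofReal.tendsto' 1 1 rfl).comp h1⟩
  · rintro ⟨e, he, h⟩
    obtain ⟨T, hT, h1⟩ := suf X
      (ess_of_seq X e he ((Complex.continuous_re.tendsto' 1 1 rfl).comp h))
    refine ⟨T, hT, fun x y u hu => ?_⟩
    rw [hX, lim_eq L hL.1 hL.2.1 hL.2.2 u _ ((h1 x y).congr fun n => (hu n).symm)]

end Pool.Agent.Results.MP_f651fd_an.NonCompactLimits
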