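import Pool.Agent.FS.AsymLimit.Uni

/-!
The L-asymptotic limits of operators similar to a unitary on a separable complex Hilbert
space. The bounded complex sequences are modelled as the bounded continuous functions on the
discrete space of natural numbers.
-/

namespace Pool.Agent.Results.MP_f651fd_an.UnitarySimilar

open Filter Topology Pool.Agent.FS.AsymLimit

/-- A Banach limit: a positive, shift-invariant, normalised linear functional on bounded
sequences. -/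
def IsBanachLimit (L : BoundedContinuousFunction ℕ ℂ →ₗ[ℂ] ℂ) : Prop :=
  (∀ u : BoundedContinuousFunction ℕ ℂ, (∀ n, 0 ≤ (u n).re ∧ (u n).im = 0) →
    0 ≤ (L u).re ∧ (L u).im = 0) ∧
  (∀ u v : BoundedContinuousFunction ℕ ℂ, (∀ n, v n = u (n + 1)) → L v = L u) ∧
  (∀ u : BoundedContinuousFunction ℕ ℂ, (∀ n, u n = 1) → L u = 1)

/-- The operator A is the L-asymptotic limit of T. -/
def IsAsymptoticLimit {H : Type*} [NormedAddCommGroup H] [InnerProductSpace ℂ H]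
    (L : BoundedContinuousFunction ℕ ℂ →ₗ[ℂ] ℂ) (T A : H →L[ℂ] H) : Prop :=
  ∀ (x y : H) (u : BoundedContinuousFunction ℕ ℂ),
    (∀ n : ℕ, u n = inner ℂ ((T ^ n) x) ((T ^ n) y)) → inner ℂ (A x) y = L u

theorem result {H : Type*} [NormedAddCommGroup H] [InnerProductSpace ℂ H] [CompleteSpace H]
    [TopologicalSpace.SeparableSpace H] (hH : ¬ FiniteDimensional ℂ H)
    (L : BoundedContinuousFunction ℕ ℂ →ₗ[ℂ] ℂ) (hL : IsBanachLimit L)
    (A : H →L[ℂ] H) (hA : A.IsPositive) :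
    (∃ (S : (H →L[ℂ] H)ˣ) (U : unitary (H →L[ℂ] H)),
      IsAsymptoticLimit L ((↑S⁻¹ : H →L[ℂ] H) * (U : H →L[ℂ] H) * (S : H →L[ℂ] H)) A) ↔
      IsUnit A ∧ ∃ e : ℕ → H, Orthonormal ℂ e ∧
        Tendsto (fun n => inner ℂ (A (e n)) (e n)) atTop (𝓝 (1 : ℂ)) := by
  obtain ⟨X, hX, hc, hu⟩ := exists_root_unit A hA
  have hq : ∀ x, inner ℂ (A x) x = ((‖X x‖ ^ 2 : ℝ) : ℂ) := fun x => by
    rw [hX, inner_self_eq_norm_sq_to_K]
    simp
  simp only [hq]
  constructor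
  · rintro ⟨S, U, h⟩
    obtain ⟨M, -, hM⟩ := similar_bounds S U
    have hAu := unit_of_lower L hL.1 hL.2.2 A _ hM fun x u hu => h x x u hu
    have hK : ¬ IsCompactOperator X := fun hk => by
      obtain ⟨B, rfl⟩ := hAu
      refine hH (FiniteDimensional.of_isCompactOperator_id (𝕜 := ℂ) ?_)
      have h1 := (hc hk).comp_clm (↑B⁻¹ : H →L[ℂ] H)
      have h2 : (B : H →L[ℂ] H) ∘ (↑B⁻¹ : H →L[ℂ] H) = id := funext fun y => by
        rw [Function.comp_apply, ← mul_apply_eq_comp, B.mul_inv]; rfl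
      rwa [h2] at h1
    obtain ⟨e, he, h1⟩ := seq_of_ess X (nec L hL.1 hL.2.1 hL.2.2 X _ hK (fun n => (hM n).1)
      fun x u hu => (hX x x).symm.trans (h x x u hu))
    exact ⟨hAu, e, he, (Complex.continuous_ofReal.tendsto' 1 1 rfl).comp h1⟩
  · rintro ⟨hAu, e, he, h⟩
    obtain ⟨S, rfl⟩ := hu hAu
    obtain ⟨V, hV, h1⟩ := suf_unitary (S : H →L[ℂ] H) (↑S⁻¹ : H →L[ℂ] H) S.inv_mul S.mul_inv
      (ess_of_seq _ e he ((Complex.continuous_re.tendsto' 1 1 rfl).comp h))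
    refine ⟨S, ⟨V, hV⟩, fun x y u hu => ?_⟩
    rw [hX, lim_eq L hL.1 hL.2.1 hL.2.2 u _ ((h1 x y).congr fun n => (hu n).symm)]

end Pool.Agent.Results.MP_f651fd_an.UnitarySimilar
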